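import Pool.Agent.X164.MG.C

set_option autoImplicit false
open scoped Pointwise

universe u

namespace Pool.Agent.Results.MP_dd2a7c_co.DenseProjection

/-- The integer vector `x` lies in the set `B` of real vectors. -/
def In {d : ℕ} (x : Fin d → ℤ) (B : Set (Fin d → ℝ)) : Prop := (fun i => (x i : ℝ)) ∈ B

/-- The conclusion of Q1 with the constant `C`: `A` is covered by at most `C K ^ C` translates of
the centred convex coset progression `ψ(ℤ^d ∩ B) + H`, of dimension `d ≤ C log (2 K)` and of volume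
`|ℤ^d ∩ B| |H| ≤ |A|`. -/
def Covered (C K : ℝ) {Γ : Type*} [AddCommGroup Γ] (A : Finset Γ) : Prop :=
  ∃ (d : ℕ) (B : Set (Fin d → ℝ)) (ψ : (Fin d → ℤ) →+ Γ) (H : AddSubgroup Γ) (T : Finset Γ),
    (d : ℝ) ≤ C * Real.log (2 * K) ∧
    (Convex ℝ B ∧ IsCompact B ∧ (interior B).Nonempty ∧ ∀ v ∈ B, -v ∈ B) ∧ Finite H ∧
    {x : Fin d → ℤ | In x B}.ncard * Nat.card H ≤ A.card ∧ (T.card : ℝ) ≤ C * K ^ C ∧
    ∀ a ∈ A, ∃ t ∈ T, ∃ x : Fin d → ℤ, In x B ∧ ∃ h ∈ H, a = t + ψ x + h

/-- **Q1 in mixed groups, for sets with dense projection.** For every `m ≥ 1` there is `C` such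
that the conclusion of Q1 holds for all `A` with `|A + A| ≤ K |A|` in all groups `Γ` with a
surjection `π : Γ → ℤ^r`, `r` arbitrary, whose kernel is killed by `m`, provided that `π(A)` is dense
in its convex hull, `|conv (π A) ∩ ℤ^r| ≤ K |π(A)|`. There is no condition on the fibres of `A`.

For `r = 0` this is the theorem for groups of bounded torsion, for `m = 1` the case of sets of
integer points which are dense in their convex hull. -/
theorem result (m : ℕ) (hm : 0 < m) :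
    ∃ C : ℝ, ∀ (Γ : Type u) [AddCommGroup Γ] [DecidableEq Γ] (r : ℕ)
      (π : Γ →+ (Fin r → ℤ)), Function.Surjective π → (∀ x, π x = 0 → m • x = 0) →
      ∀ (K : ℝ) (A : Finset Γ), A.Nonempty → ((A + A).card : ℝ) ≤ K * A.card →
        ({x : Fin r → ℤ | In x (convexHull ℝ
            {v : Fin r → ℝ | ∃ a ∈ A, ∀ i, v i = ((π a i : ℤ) : ℝ)})}.ncard : ℝ) ≤
          K * (A.image π).card →
        Covered C K A := by
  obtain ⟨C, hC⟩ := Pool.Agent.X164.MG.convex_case.{u} m hm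
  refine ⟨C, fun Γ _ _ r π hπ hker K A hA hK hh => hC Γ r π hπ hker K A hA hK ?_⟩
  have e : Pool.Agent.Y806.DF.re '' ((A.image π : Finset (Fin r → ℤ)) : Set (Fin r → ℤ)) =
      {v : Fin r → ℝ | ∃ a ∈ A, ∀ i, v i = ((π a i : ℤ) : ℝ)} := by
    ext v
    constructor
    · rintro ⟨x, hx, rfl⟩
      obtain ⟨a, ha, rfl⟩ := Finset.mem_image.1 (Finset.mem_coe.1 hx)
      exact ⟨a, ha, fun i => rfl⟩
    · rintro ⟨a, ha, h⟩
      exact ⟨π a, Finset.mem_coe.2 (Finset.mem_image_of_mem _ ha), (funext h).symm⟩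
  rw [← e] at hh
  exact hh

end Pool.Agent.Results.MP_dd2a7c_co.DenseProjection
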