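import Pool.Agent.X164.FM.Final

set_option autoImplicit false
open scoped Pointwise

universe u

namespace Pool.Agent.Results.MP_dd2a7c_co.FilteredMarton

/-- A polynomial Freiman-Ruzsa theorem in every abelian group along chains of subgroups, with an
exponent that does not depend on the number of levels.

Let `G 0 ≥ G 1 ≥ G 2 ≥ ...` be a descending chain of subgroups of `Γ` such that each quotient
`G j / G (j + 1)` has exponent at most `m` (for instance `G j = m ^ j Γ`), and let `|A + A| ≤ K |A|`.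
Then there are intermediate subgroups `G (j + 1) ≤ V j ≤ G j` of finite index over `G (j + 1)` and
a subset `A'` of `A` with `|A| ≤ K ^ C |A'|`, `C = 492052 (⌊log₂ m⌋ + 1)`, such that

* the first nonzero digit of a difference of elements of `A'` lies in the subgroup:
  `a - b ∈ G j` implies `a - b ∈ V j` for all `a, b ∈ A'` and all `j`; in particular `A'` meets at
  most `∏_{j < i} [V j : G (j + 1)]` cosets of `G i`;
* this is sharp up to `K ^ C` at each level: `∏_{j < i} [V j : G (j + 1)]` is at most `K ^ C` times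
  the number of cosets of `G i` that meet `A`;
* `A` is covered by `K ^ (C + 1)` translates of `A' - A'`. -/
theorem result {Γ : Type u} [AddCommGroup Γ] [DecidableEq Γ] (K : ℝ) (A : Finset Γ)
    (hA : A.Nonempty) (hK : ((A + A).card : ℝ) ≤ K * (A.card : ℝ)) (m : ℕ)
    (G : ℕ → AddSubgroup Γ) (hle : ∀ j, G (j + 1) ≤ G j)
    (hexp : ∀ j, ∃ e : ℕ, 1 ≤ e ∧ e ≤ m ∧ ∀ x ∈ G j, e • x ∈ G (j + 1)) :
    ∃ (V : ℕ → AddSubgroup Γ) (A' T : Finset Γ),
      (∀ j, G (j + 1) ≤ V j ∧ V j ≤ G j ∧ (G (j + 1)).relIndex (V j) ≠ 0) ∧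
      A' ⊆ A ∧ (A.card : ℝ) ≤ K ^ (492052 * (Nat.log 2 m + 1)) * A'.card ∧
      (∀ a ∈ A', ∀ b ∈ A', ∀ j, a - b ∈ G j → a - b ∈ V j) ∧
      (∀ i, ((∏ j ∈ Finset.range i, (G (j + 1)).relIndex (V j) : ℕ) : ℝ) ≤
        K ^ (492052 * (Nat.log 2 m + 1)) *
          ((QuotientAddGroup.mk' (G i)) '' (A : Set Γ)).ncard) ∧
      T ⊆ A ∧ (T.card : ℝ) ≤ K ^ (492052 * (Nat.log 2 m + 1) + 1) ∧
      ∀ a ∈ A, ∃ t ∈ T, ∃ x ∈ A', ∃ y ∈ A', a = t + (x - y) := by
  rename_i d
  have hd : d = (fun a b => Classical.propDecidable (a = b)) := Subsingleton.elim _ _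
  subst hd
  exact Pool.Agent.X164.FM.filtered_inf hA hK m G hle hexp

end Pool.Agent.Results.MP_dd2a7c_co.FilteredMarton
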