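import Pool.Agent.X164.WM.SplitCop

set_option autoImplicit false
open scoped Pointwise

universe u

namespace Pool.Agent.Results.MP_dd2a7c_co.IntegersToTorsionGroups

/-- The integer vector `x` lies in the set `B` of real vectors. -/
def In {d : ℕ} (x : Fin d → ℤ) (B : Set (Fin d → ℝ)) : Prop := (fun i => (x i : ℝ)) ∈ B

/-- The conclusion of Q1 with the constant `C`: `A` is covered by at most `C K ^ C` translates of
the centred convex coset progression `ψ(ℤ^d ∩ B) + H`, of dimension `d ≤ C log (2 K)` and of volume
`|ℤ^d ∩ B| |H| ≤ |A|`. -/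
def Covered (C K : ℝ) {Γ : Type*} [AddCommGroup Γ] (A : Finset Γ) : Prop :=
  ∃ (d : ℕ) (B : Set (Fin d → ℝ)) (ψ : (Fin d → ℤ) →+ Γ) (H : AddSubgroup Γ) (T : Finset Γ),
    (d : ℝ) ≤ C * Real.log (2 * K) ∧
    (Convex ℝ B ∧ IsCompact B ∧ (interior B).Nonempty ∧ ∀ v ∈ B, -v ∈ B) ∧ Finite H ∧
    {x : Fin d → ℤ | In x B}.ncard * Nat.card H ≤ A.card ∧ (T.card : ℝ) ≤ C * K ^ C ∧
    ∀ a ∈ A, ∃ t ∈ T, ∃ x : Fin d → ℤ, In x B ∧ ∃ h ∈ H, a = t + ψ x + h

/-- **The integers decide Q1 for all groups whose torsion involves boundedly many primes.** For all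
`n ≥ 2` and `m ≥ 1`, Q1 for finite subsets of `ℤ` (with some constant) is equivalent to Q1 (with
some constant) for finite subsets of all abelian groups whose elements of order coprime to `n` are
killed by `m`. There is no condition on the elements whose order is divisible only by primes that
divide `n`: for `m = 1` the groups include all groups whose torsion elements have orders with no
prime factor larger than a fixed bound, such as all `p`-groups for a fixed prime `p`. -/
theorem result (n m : ℕ) (hn : 2 ≤ n) (hm : 1 ≤ m) :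
    (∃ C : ℝ, ∀ (K : ℝ) (A : Finset ℤ), A.Nonempty →
        ((A + A).card : ℝ) ≤ K * A.card → Covered C K A) ↔
      (∃ C : ℝ, ∀ (Γ : Type u) [AddCommGroup Γ] [DecidableEq Γ],
        (∀ (k : ℕ) (x : Γ), k.Coprime n → k • x = 0 → m • x = 0) →
        ∀ (K : ℝ) (A : Finset Γ), A.Nonempty → ((A + A).card : ℝ) ≤ K * A.card →
          Covered C K A) := by
  constructor
  · rintro ⟨C, hC⟩
    obtain ⟨C', hC'⟩ := Pool.Agent.X164.WM.int_imp_cop.{u} hn hC hm
    exact ⟨C', fun Γ _ _ htor K A hA hK => hC' htor K A hA hK⟩
  · rintro ⟨C, hC⟩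
    refine ⟨C, fun K A hA hK => ?_⟩
    classical
    let e : ULift.{u} ℤ ≃+ ℤ := AddEquiv.ulift
    have hinj : Function.Injective e.symm.toAddMonoidHom := e.symm.injective
    have hc1 : (A.image e.symm.toAddMonoidHom).card = A.card :=
      Finset.card_image_of_injective _ hinj
    have hc2 : (A.image e.symm.toAddMonoidHom + A.image e.symm.toAddMonoidHom).card =
        (A + A).card := by
      rw [← Finset.image_add e.symm.toAddMonoidHom]
      exact Finset.card_image_of_injective _ hinj
    have hback : (A.image e.symm.toAddMonoidHom).image e.toAddMonoidHom = A := by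
      rw [Finset.image_image]
      have : (e.toAddMonoidHom : ULift.{u} ℤ → ℤ) ∘ e.symm.toAddMonoidHom = id := by
        funext x
        exact e.apply_symm_apply x
      rw [this, Finset.image_id]
    have h2 : Covered C K (A.image e.symm.toAddMonoidHom) := by
      refine hC (ULift.{u} ℤ) ?_ K _ (hA.image _) (by rw [hc1, hc2]; exact hK)
      intro k x hk hx
      have h3 : e x = 0 := by
        have h5 : k • e x = 0 := by rw [← map_nsmul, hx, map_zero]
        rw [nsmul_eq_mul] at h5
        rcases mul_eq_zero.1 h5 with h6 | h6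
        · have : k = 0 := by exact_mod_cast h6
          rw [this, Nat.coprime_zero_left] at hk
          omega
        · exact h6
      have h4 : x = 0 := (AddEquiv.map_eq_zero_iff e).1 h3
      rw [h4, smul_zero]
    have h3 := Pool.Agent.X164.MG.concl_map e.toAddMonoidHom e.injective h2
    rw [hback] at h3
    exact h3

end Pool.Agent.Results.MP_dd2a7c_co.IntegersToTorsionGroups
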