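import Pool.Agent.X164.WM.Final

set_option autoImplicit false
open scoped Pointwise

universe u

namespace Pool.Agent.Results.MP_dd2a7c_co.WeakMartonModulus

/-- **Weak polynomial Freiman-Ruzsa theorem in an arbitrary abelian group, up to torsion coprime to
`m`.** Let `m ≥ 2` and `L = ⌊log₂ m⌋ + 1`. A finite nonempty set `A` with `|A + A| ≤ K |A|` is
covered by `K ^ (984104 L + 1)` translates of `P + ⟨S⟩ + (elements of order coprime to m)`, where

* `P` is a finite subgroup of order at most `|A|`, killed elementwise by powers of `m`, modulo which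
  `A` is almost periodic: `|A + P| ≤ 2 K ^ (1968208 L + 2) |A|`;
* `S` has at most `L (2500000 log K + 1)` elements. -/
theorem result {Γ : Type u} [AddCommGroup Γ] [DecidableEq Γ] (m : ℕ) (hm : 2 ≤ m) (K : ℝ)
    (A : Finset Γ) (hA : A.Nonempty) (hK : ((A + A).card : ℝ) ≤ K * (A.card : ℝ)) :
    ∃ (P : AddSubgroup Γ) (S T : Finset Γ), Finite P ∧ (∀ x ∈ P, ∃ k : ℕ, (m ^ k) • x = 0) ∧
      Nat.card P ≤ A.card ∧
      (((A : Set Γ) + (P : Set Γ)).ncard : ℝ) ≤
        2 * K ^ (1968208 * (Nat.log 2 m + 1) + 2) * A.card ∧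
      (S.card : ℝ) ≤ (Nat.log 2 m + 1) * (2500000 * Real.log K + 1) ∧ T ⊆ A ∧
      (T.card : ℝ) ≤ K ^ (984104 * (Nat.log 2 m + 1) + 1) ∧
      ∀ a ∈ A, ∃ t ∈ T, ∃ o : Γ, (∃ n : ℕ, n.Coprime m ∧ n • o = 0) ∧
        a - t - o ∈ P ⊔ AddSubgroup.closure (S : Set Γ) := by
  rename_i d
  have hd : d = (fun a b => Classical.propDecidable (a = b)) := Subsingleton.elim _ _
  subst hd
  exact Pool.Agent.X164.WM.weak_marton_mod hm hA hK

end Pool.Agent.Results.MP_dd2a7c_co.WeakMartonModulus
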